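import Mathlib

/-!
# `p`-integral rationals and congruences modulo powers of `p` in `ℚ`

`I p x` : the rational `x` is `p`-integral.
`V p m x` : the rational `x` is `p^m` times a `p`-integral rational (so `x ≡ 0 mod p^m`).
-/

open Finset

namespace Pool.Agent.Lib.PadicCong

/-- `x` is `p`-integral -/
def I (p : ℕ) (x : ℚ) : Prop := padicNorm p x ≤ 1

/-- `x ≡ 0 mod p^m` in the `p`-integral rationals -/
def V (p m : ℕ) (x : ℚ) : Prop := ∃ z : ℚ, I p z ∧ x = (p : ℚ) ^ m * z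

section
variable {p : ℕ} [hp : Fact p.Prime]

theorem I.add {x y : ℚ} (hx : I p x) (hy : I p y) : I p (x + y) :=
  padicNorm.nonarchimedean.trans (max_le hx hy)

theorem I.neg {x : ℚ} (hx : I p x) : I p (-x) := by
  unfold I; rw [padicNorm.neg]; exact hx

theorem I.sub {x y : ℚ} (hx : I p x) (hy : I p y) : I p (x - y) := by
  rw [sub_eq_add_neg]; exact hx.add hy.neg

theorem I.mul {x y : ℚ} (hx : I p x) (hy : I p y) : I p (x * y) := by
  unfold I; rw [padicNorm.mul]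
  exact mul_le_one₀ hx (padicNorm.nonneg y) hy

theorem I.int (z : ℤ) : I p (z : ℚ) := padicNorm.of_int z

theorem I.nat (n : ℕ) : I p (n : ℚ) := padicNorm.of_nat n

theorem I.zero : I p 0 := by simpa using I.nat (p := p) 0

theorem I.one : I p 1 := by simpa using I.nat (p := p) 1

theorem I.ofNat (n : ℕ) [n.AtLeastTwo] : I p (OfNat.ofNat n : ℚ) := by
  rw [← Nat.cast_ofNat (R := ℚ)]; exact I.nat _

theorem I.pow {x : ℚ} (hx : I p x) (n : ℕ) : I p (x ^ n) := by
  induction n with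
  | zero => rw [pow_zero]; exact I.one
  | succ n ih => rw [pow_succ]; exact ih.mul hx

theorem I.sum {ι : Type*} {s : Finset ι} {f : ι → ℚ} (h : ∀ i ∈ s, I p (f i)) :
    I p (∑ i ∈ s, f i) := padicNorm.sum_le' h zero_le_one

theorem I.prod {ι : Type*} {s : Finset ι} {f : ι → ℚ} (h : ∀ i ∈ s, I p (f i)) :
    I p (∏ i ∈ s, f i) := by
  classical
  induction s using Finset.induction_on with
  | empty => simpa using I.one
  | insert a s ha ih =>
    rw [Finset.prod_insert ha]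
    exact (h a (Finset.mem_insert_self _ _)).mul
      (ih fun i hi => h i (Finset.mem_insert_of_mem hi))

theorem I.inv_nat {n : ℕ} (hn : ¬ p ∣ n) : I p ((n : ℚ)⁻¹) := by
  unfold I
  have h1 : padicNorm p ((n : ℚ)⁻¹) * padicNorm p (n : ℚ) = 1 := by
    rw [← padicNorm.mul, inv_mul_cancel₀, padicNorm.one]
    intro h
    have : n = 0 := by exact_mod_cast h
    exact hn (this ▸ dvd_zero p)
  rw [(padicNorm.nat_eq_one_iff n).mpr hn, mul_one] at h1
  exact h1.le

theorem I.inv_int {n : ℤ} (hn : ¬ (p : ℤ) ∣ n) : I p ((n : ℚ)⁻¹) := by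
  unfold I
  have h1 : padicNorm p ((n : ℚ)⁻¹) * padicNorm p (n : ℚ) = 1 := by
    rw [← padicNorm.mul, inv_mul_cancel₀, padicNorm.one]
    intro h
    have : n = 0 := by exact_mod_cast h
    exact hn (this ▸ dvd_zero _)
  rw [(padicNorm.int_eq_one_iff n).mpr hn, mul_one] at h1
  exact h1.le

theorem I.div_nat {x : ℚ} (hx : I p x) {n : ℕ} (hn : ¬ p ∣ n) : I p (x / n) := by
  rw [div_eq_mul_inv]; exact hx.mul (I.inv_nat hn)

theorem V.zero (m : ℕ) : V p m 0 := ⟨0, I.zero, by ring⟩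

theorem V.add {m : ℕ} {x y : ℚ} (hx : V p m x) (hy : V p m y) : V p m (x + y) := by
  obtain ⟨a, ha, rfl⟩ := hx
  obtain ⟨b, hb, rfl⟩ := hy
  exact ⟨a + b, ha.add hb, by ring⟩

theorem V.neg {m : ℕ} {x : ℚ} (hx : V p m x) : V p m (-x) := by
  obtain ⟨a, ha, rfl⟩ := hx
  exact ⟨-a, ha.neg, by ring⟩

theorem V.sub {m : ℕ} {x y : ℚ} (hx : V p m x) (hy : V p m y) : V p m (x - y) := by
  rw [sub_eq_add_neg]; exact hx.add hy.neg

theorem V.mul {m n : ℕ} {x y : ℚ} (hx : V p m x) (hy : V p n y) : V p (m + n) (x * y) := by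
  obtain ⟨a, ha, rfl⟩ := hx
  obtain ⟨b, hb, rfl⟩ := hy
  exact ⟨a * b, ha.mul hb, by rw [pow_add]; ring⟩

theorem V.mul_I {m : ℕ} {x y : ℚ} (hx : V p m x) (hy : I p y) : V p m (x * y) := by
  obtain ⟨a, ha, rfl⟩ := hx
  exact ⟨a * y, ha.mul hy, by ring⟩

theorem V.I_mul {m : ℕ} {x y : ℚ} (hx : I p x) (hy : V p m y) : V p m (x * y) := by
  rw [mul_comm]; exact hy.mul_I hx

theorem V.mono {m n : ℕ} (h : n ≤ m) {x : ℚ} (hx : V p m x) : V p n x := by
  obtain ⟨a, ha, rfl⟩ := hx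
  obtain ⟨k, rfl⟩ := Nat.exists_eq_add_of_le h
  exact ⟨(p : ℚ) ^ k * a, ((I.nat p).pow k).mul ha, by rw [pow_add]; ring⟩

theorem V.toI {m : ℕ} {x : ℚ} (hx : V p m x) : I p x := by
  obtain ⟨a, ha, rfl⟩ := hx
  exact ((I.nat p).pow m).mul ha

theorem I.toV {x : ℚ} (hx : I p x) : V p 0 x := ⟨x, hx, by ring⟩

theorem V.pow {m : ℕ} {x : ℚ} (hx : V p m x) (k : ℕ) : V p (m * k) (x ^ k) := by
  obtain ⟨a, ha, rfl⟩ := hx
  exact ⟨a ^ k, ha.pow k, by rw [mul_pow, pow_mul]⟩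

theorem V.sum {ι : Type*} {m : ℕ} {s : Finset ι} {f : ι → ℚ} (h : ∀ i ∈ s, V p m (f i)) :
    V p m (∑ i ∈ s, f i) := by
  classical
  induction s using Finset.induction_on with
  | empty => simpa using V.zero m
  | insert a s ha ih =>
    rw [Finset.sum_insert ha]
    exact (h a (Finset.mem_insert_self _ _)).add
      (ih fun i hi => h i (Finset.mem_insert_of_mem hi))

theorem V.of_dvd {m n : ℕ} (h : p ^ m ∣ n) : V p m (n : ℚ) := by
  obtain ⟨k, rfl⟩ := h
  exact ⟨k, I.nat k, by push_cast; ring⟩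

theorem V.of_dvd_int {m : ℕ} {n : ℤ} (h : (p : ℤ) ^ m ∣ n) : V p m (n : ℚ) := by
  obtain ⟨k, rfl⟩ := h
  exact ⟨k, I.int k, by push_cast; ring⟩

theorem V.p_self : V p 1 (p : ℚ) := ⟨1, I.one, by ring⟩

/-- cancel a `p`-adic unit -/
theorem V.cancel_nat {m n : ℕ} (hn : ¬ p ∣ n) {x : ℚ} (h : V p m ((n : ℚ) * x)) : V p m x := by
  have hn0 : (n : ℚ) ≠ 0 := by
    intro h0
    have : n = 0 := by exact_mod_cast h0
    exact hn (this ▸ dvd_zero p)
  have := h.mul_I (I.inv_nat hn)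
  have e : (n : ℚ) * x * (n : ℚ)⁻¹ = x := by field_simp
  rwa [e] at this

/-- difference of cubes -/
theorem V.cube_sub {m n : ℕ} {x y : ℚ} (hy : V p m y) (h : V p n (x - y)) (hmn : m ≤ n) :
    V p (2 * m + n) (x ^ 3 - y ^ 3) := by
  have e : x ^ 3 - y ^ 3 = (x - y) * (3 * y ^ 2) + (x - y) ^ 2 * (3 * y) + (x - y) ^ 3 := by ring
  rw [e]
  have h3 : I p (3 : ℚ) := I.ofNat 3
  refine V.add (V.add ?_ ?_) ?_
  · have := h.mul (V.I_mul h3 (hy.pow 2))
    exact this.mono (by omega)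
  · have := (h.pow 2).mul (V.I_mul h3 hy)
    exact this.mono (by omega)
  · exact (h.pow 3).mono (by omega)

theorem V.num_dvd {m : ℕ} {x : ℚ} (h : V p m x) : (p : ℤ) ^ m ∣ x.num := by
  obtain ⟨z, hz, hx⟩ := h
  have hden : ¬ p ∣ z.den := by
    intro hd
    by_cases hz0 : z = 0
    · subst hz0
      simp only [Rat.den_ofNat] at hd
      exact hp.out.one_lt.ne' (Nat.dvd_one.mp hd)
    have h1 : padicNorm p (z * z.den) = padicNorm p (z.num : ℚ) := by rw [Rat.mul_den_eq_num]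
    rw [padicNorm.mul] at h1
    have h2 : padicNorm p (z.den : ℚ) < 1 := (padicNorm.nat_lt_one_iff z.den).mpr hd
    have h3 : padicNorm p (z.num : ℚ) < 1 := by
      rw [← h1]
      calc padicNorm p z * padicNorm p (z.den : ℚ) ≤ 1 * padicNorm p (z.den : ℚ) :=
            mul_le_mul_of_nonneg_right hz (padicNorm.nonneg _)
        _ < 1 := by rw [one_mul]; exact h2
    have h4 := (padicNorm.int_lt_one_iff z.num).mp h3
    have h5 : p ∣ z.num.natAbs := Int.natCast_dvd.mp h4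
    have h6 := Nat.dvd_gcd h5 hd
    rw [z.reduced.gcd_eq_one] at h6
    exact hp.out.one_lt.ne' (Nat.dvd_one.mp h6)
  -- x.num * z.den = p^m * z.num * x.den
  have e : (x.num : ℚ) * z.den = (p : ℚ) ^ m * z.num * x.den := by
    have h1 : (x.num : ℚ) = x * x.den := (Rat.mul_den_eq_num x).symm
    have h2 : (z.num : ℚ) = z * z.den := (Rat.mul_den_eq_num z).symm
    rw [h1, h2, hx]; ring
  have e2 : x.num * z.den = (p : ℤ) ^ m * (z.num * x.den) := by
    have : ((x.num * z.den : ℤ) : ℚ) = (((p : ℤ) ^ m * (z.num * x.den) : ℤ) : ℚ) := by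
      push_cast; rw [e]; ring
    exact_mod_cast this
  have hcop : IsCoprime ((p : ℤ) ^ m) (z.den : ℤ) := by
    apply IsCoprime.pow_left
    rw [Nat.isCoprime_iff_coprime]
    exact (Nat.Prime.coprime_iff_not_dvd hp.out).mpr hden
  exact hcop.dvd_of_dvd_mul_right ⟨_, e2⟩

end

end Pool.Agent.Lib.PadicCong
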